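import Pool.Agent.N356.SP.Defs4
import Pool.Agent.N645.LS.L7a

set_option autoImplicit false

/-! # Project LS (helper356), KS9: the eighth moment in functions -/

namespace Pool.Agent.N263.LS

open Finset Pool.Agent.H384R3.SPk Pool.Agent.N356.SP Pool.Agent.N645.LS

variable {m : ℕ} {C : Finset (ZMod m)} {θ : ZMod m → ZMod m → ℝ} {g f : ℤ →₀ ℝ}

theorem muf_cont : Continuous (muf C f) := by
  unfold muf
  exact continuous_finsetSum _ fun c _ => ((cl_cont m f c).norm).pow 2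

theorem Vf_cont (r : ZMod m) : Continuous (Vf C θ f r) := by
  unfold Vf
  refine continuous_finsetSum _ fun s _ => continuous_finsetSum _ fun t _ => ?_
  split_ifs
  · exact continuous_const.mul ((cl_cont m f s).mul (cl_cont m f t))
  · exact continuous_const

theorem wf_cont : Continuous (wf C θ f) := by
  unfold wf
  exact continuous_finsetSum _ fun r _ => ((Vf_cont r).norm).pow 2

theorem Vf_conj (hneg : ∀ s ∈ C, -s ∈ C) (heven : ∀ s t, θ (-s) (-t) = θ s t) (r : ZMod m)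
    (x : ℝ) : (starRingEnd ℂ) (Vf C θ f r x) = Vf C θ f (-r) x := by
  classical
  have hre : ∀ F : ZMod m → ℂ, ∑ s ∈ C, F s = ∑ s ∈ C, F (-s) := by
    intro F
    exact Finset.sum_nbij' (fun s => -s) (fun s => -s) (fun s hs => hneg s hs)
      (fun s hs => hneg s hs) (fun s _ => neg_neg s) (fun s _ => neg_neg s)
      (fun s _ => by rw [neg_neg])
  unfold Vf
  rw [map_sum]
  refine Eq.trans (sum_congr rfl fun s _ => ?_) (hre _).symm
  rw [map_sum]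
  refine Eq.trans (sum_congr rfl fun t _ => ?_) (hre _).symm
  by_cases h : s + t = r
  · have h' : -s + -t = -r := by rw [← h, neg_add]
    rw [if_pos h, if_pos h', map_mul, map_mul, cl_conj, cl_conj, Complex.conj_ofReal, heven]
  · have h' : ¬ (-s + -t = -r) := fun h2 => h (by rw [← neg_add, neg_inj] at h2; exact h2)
    rw [if_neg h, if_neg h', map_zero]

theorem mul_conj_sq (z : ℂ) : z * (starRingEnd ℂ) z = ((‖z‖ ^ 2 : ℝ) : ℂ) := by
  rw [Complex.mul_conj, Complex.normSq_eq_norm_sq]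

theorem fA_apply (hneg : ∀ s ∈ C, -s ∈ C) (hf : ∀ n ∈ f.support, ((n : ℤ) : ZMod m) ∈ C)
    {φ : ZMod m → C(ℝ, ℂ)} (hφ : ∀ c x, φ c x = cl m f c x) (x : ℝ) :
    fA C φ x = (cosp f x : ℂ) := by
  unfold fA
  rw [ContinuousMap.sum_apply, cosp_eq m f C hneg hf x]
  exact sum_congr rfl fun c _ => hφ c x

theorem muA_apply {φ : ZMod m → C(ℝ, ℂ)} (hφ : ∀ c x, φ c x = cl m f c x) (x : ℝ) :
    muA C φ x = (muf C f x : ℂ) := by
  unfold muA muf
  rw [ContinuousMap.sum_apply, Complex.ofReal_sum]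
  refine sum_congr rfl fun c _ => ?_
  rw [ContinuousMap.mul_apply, hφ, hφ, ← cl_conj, mul_conj_sq]

theorem VA_apply {φ : ZMod m → C(ℝ, ℂ)} (hφ : ∀ c x, φ c x = cl m f c x) (r : ZMod m) (x : ℝ) :
    VA C θ φ r x = Vf C θ f r x := by
  unfold VA Vf
  rw [ContinuousMap.sum_apply]
  refine sum_congr rfl fun s _ => ?_
  rw [ContinuousMap.sum_apply]
  refine sum_congr rfl fun t _ => ?_
  split_ifs
  · rw [ContinuousMap.smul_apply, ContinuousMap.mul_apply, hφ, hφ, Complex.real_smul]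
  · rfl

theorem wA_apply (hneg : ∀ s ∈ C, -s ∈ C) (heven : ∀ s t, θ (-s) (-t) = θ s t)
    {φ : ZMod m → C(ℝ, ℂ)} (hφ : ∀ c x, φ c x = cl m f c x) (x : ℝ) :
    wA C θ φ x = (wf C θ f x : ℂ) := by
  unfold wA wf
  rw [ContinuousMap.sum_apply, Complex.ofReal_sum]
  refine sum_congr rfl fun r _ => ?_
  rw [ContinuousMap.mul_apply, VA_apply hφ, VA_apply hφ, ← Vf_conj hneg heven, mul_conj_sq]

theorem re_int {F : C(ℝ, ℂ)} {G : ℝ → ℝ} (h : ∀ x, F x = (G x : ℂ)) :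
    (∫ x in (0:ℝ)..1, F x).re = ∫ x in (0:ℝ)..1, G x := by
  have h1 : (∫ x in (0:ℝ)..1, F x) = ((∫ x in (0:ℝ)..1, G x : ℝ) : ℂ) := by
    rw [← intervalIntegral.integral_ofReal]
    exact intervalIntegral.integral_congr fun x _ => h x
  rw [h1, Complex.ofReal_re]

/-- KS9 with the statements KS7 (`L_f8`) and KS8 (`exists_cone`) as hypotheses -/
theorem star8_of
    (HL : ∀ {m : ℕ} {K : Cone (ZMod m) C(ℝ, ℂ)} {L : C(ℝ, ℂ) →ₗ[ℝ] ℝ} {C : Finset (ZMod m)}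
      {θ : ZMod m → ZMod m → ℝ} {φ : ZMod m → C(ℝ, ℂ)} (_ : IsFun K L) (_ : GoodC C θ)
      (_ : ∀ c, φ c ∈ K.P c),
      35 / 8 * L (muA C φ ^ 4) + 20 / 3 * L (muA C φ ^ 2 * wA C θ φ) +
        32 / 75 * L (wA C θ φ ^ 2) ≤ L (fA C φ ^ 8))
    (HC : ∀ m : ℕ, ∃ (K : Cone (ZMod m) C(ℝ, ℂ)) (L : C(ℝ, ℂ) →ₗ[ℝ] ℝ), IsFun K L ∧
      (∀ F : C(ℝ, ℂ), L F = (∫ x in (0:ℝ)..1, F x).re) ∧
      ∀ f : ℤ →₀ ℝ, (∀ n, 0 ≤ f n) → ∀ c : ZMod m, ∃ F ∈ K.P c, ∀ x, F x = cl m f c x)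
    (h : GoodC C θ) (hf0 : ∀ n, 0 ≤ f n) (hf : ∀ n ∈ f.support, ((n : ℤ) : ZMod m) ∈ C) :
    35 / 8 * (∫ x in (0:ℝ)..1, muf C f x ^ 4) +
      20 / 3 * (∫ x in (0:ℝ)..1, muf C f x ^ 2 * wf C θ f x) +
      32 / 75 * (∫ x in (0:ℝ)..1, wf C θ f x ^ 2) ≤ Mc 4 f := by
  obtain ⟨K, L, hL, hLF, hex⟩ := HC m
  choose φ hφ hφx using hex f hf0
  have key := HL hL h hφ
  have e1 : L (muA C φ ^ 4) = ∫ x in (0:ℝ)..1, muf C f x ^ 4 := by
    rw [hLF]
    refine re_int fun x => ?_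
    rw [ContinuousMap.pow_apply, muA_apply hφx, Complex.ofReal_pow]
  have e2 : L (muA C φ ^ 2 * wA C θ φ) = ∫ x in (0:ℝ)..1, muf C f x ^ 2 * wf C θ f x := by
    rw [hLF]
    refine re_int fun x => ?_
    rw [ContinuousMap.mul_apply, ContinuousMap.pow_apply, muA_apply hφx,
      wA_apply h.neg h.even hφx, Complex.ofReal_mul, Complex.ofReal_pow]
  have e3 : L (wA C θ φ ^ 2) = ∫ x in (0:ℝ)..1, wf C θ f x ^ 2 := by
    rw [hLF]
    refine re_int fun x => ?_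
    rw [ContinuousMap.pow_apply, wA_apply h.neg h.even hφx, Complex.ofReal_pow]
  have e4 : L (fA C φ ^ 8) = Mc 4 f := by
    rw [hLF]
    unfold Mc
    refine re_int fun x => ?_
    rw [ContinuousMap.pow_apply, fA_apply h.neg hf hφx, Complex.ofReal_pow]
  rw [e1, e2, e3, e4] at key
  exact key

end Pool.Agent.N263.LS
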